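import Pool.Agent.Helper49.RU.St

/-!
Project RU, module FIN: the finite lemma (a big part and a projection that isolates the phase vectors).
-/

set_option autoImplicit false

namespace Pool.Agent.Helper16.RU

open Pool.Agent.Helper49.RU
open MeasureTheory Filter Topology Complex
open scoped ENNReal Cardinal ComplexConjugate

/-- disjoint pieces of equal size -/
private lemma pieces {k m c : ℕ} (S : Finset (Fin k)) (h : m * c ≤ S.card) :
    ∃ T : Fin m → Finset (Fin k), (∀ a, T a ⊆ S) ∧ (∀ a, (T a).card = c) ∧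
      ∀ a b, a ≠ b → Disjoint (T a) (T b) := by
  classical
  let f : Fin m × Fin c → Fin k := fun x =>
    S.orderEmbOfFin rfl (Fin.castLE h (finProdFinEquiv x))
  have hf : Function.Injective f := by
    intro x y hxy
    have h1 := (S.orderEmbOfFin rfl).injective hxy
    have h2 := Fin.castLE_injective h h1
    exact finProdFinEquiv.injective h2
  refine ⟨fun a => Finset.univ.image fun r => f (a, r), ?_, ?_, ?_⟩
  · intro a x hx
    rw [Finset.mem_image] at hx
    obtain ⟨r, -, rfl⟩ := hx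
    exact S.orderEmbOfFin_mem rfl _
  · intro a
    rw [Finset.card_image_of_injective, Finset.card_univ, Fintype.card_fin]
    intro r r' hr
    have := hf hr
    exact (Prod.mk.inj this).2
  · intro a b hab
    rw [Finset.disjoint_left]
    intro x hx hy
    rw [Finset.mem_image] at hx hy
    obtain ⟨r, -, rfl⟩ := hx
    obtain ⟨r', -, hr'⟩ := hy
    have := hf hr'
    exact hab (Prod.mk.inj this).1.symm

/-- the real arithmetic of the exponents -/
private lemma expo {s m j c L : ℕ} (hm : 1 ≤ m) (hL : L = 4 * m * (j + 1)) (hLs : L ≤ s)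
    (hc : s < m * (c + 1)) :
    (s : ℝ) / ((L : ℝ) + 1) + 1 ≤ (c : ℝ) / ((j : ℝ) + 1) := by
  have hm0 : (0 : ℝ) < m := by exact_mod_cast hm
  have hj0 : (0 : ℝ) < (j : ℝ) + 1 := by positivity
  have hLr : (L : ℝ) = 4 * m * (j + 1) := by rw [hL]; push_cast; ring
  have hL0 : (0 : ℝ) < L := by rw [hLr]; positivity
  have hs : (L : ℝ) ≤ s := by exact_mod_cast hLs
  have hcr : (s : ℝ) < m * (c + 1) := by exact_mod_cast hc
  have h1 : (s : ℝ) / ((L : ℝ) + 1) ≤ s / L :=
    div_le_div_of_nonneg_left (by positivity) hL0 (by linarith)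
  set x : ℝ := (s : ℝ) / (m * (j + 1)) with hx
  have hx4 : 4 ≤ x := by
    rw [hx, le_div_iff₀ (by positivity)]
    rw [hLr] at hs
    linarith
  have h2 : (s : ℝ) / L = x / 4 := by
    rw [hx, hLr]
    field_simp
  have h3 : x - 1 ≤ (c : ℝ) / ((j : ℝ) + 1) := by
    rw [le_div_iff₀ hj0]
    have h4 : x * (j + 1) = s / m := by
      rw [hx]
      field_simp
    have h5 : (s : ℝ) / m < c + 1 := by
      rw [div_lt_iff₀ hm0]
      linarith
    have h6 : (0 : ℝ) ≤ j := Nat.cast_nonneg j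
    nlinarith
  rw [h2] at h1
  linarith

theorem hFIN (hAVG : StAVG) (hTWI : StTWI) (hSEC : StSEC) : StFIN := by
  classical
  intro j ε hε
  obtain ⟨-, hT⟩ := hTWI
  set m : ℕ := ⌈2 / ε ^ 2⌉₊ + 1 with hmd
  have hm1 : 1 ≤ m := by omega
  have hmε : 2 / ε ^ 2 ≤ m := by
    have h1 := Nat.le_ceil (2 / ε ^ 2)
    have h2 : ((⌈2 / ε ^ 2⌉₊ : ℕ) : ℝ) ≤ m := by
      rw [hmd]
      push_cast
      linarith
    linarith
  have hmε2 : 2 ≤ (m : ℝ) * ε ^ 2 := by
    rwa [div_le_iff₀ (by positivity)] at hmε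
  refine ⟨4 * m * (j + 1), ?_⟩
  intro k Z hZ w hw
  obtain ⟨S, q, hq, hLS, hcard⟩ := hZ
  set s := S.card with hs
  set c := s / m with hc
  have hmc : m * c ≤ s := Nat.mul_div_le s m
  have hsc : s < m * (c + 1) := Nat.lt_mul_div_succ s hm1
  obtain ⟨T, hTS, hTc, hTd⟩ := pieces S hmc
  -- the number of bad indices for a fixed parameter
  have hbad : ∀ g : Fin k → Q,
      2 * (Finset.univ.filter fun a => ε < ‖pp (T a) g (w g) - pz (zz g) (w g)‖).card ≤ m := by
    intro g
    have h1 := hAVG (Fin k) (fun t => conj (chi t g) * w g t) m T hTd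
    have h2 : ∑ a, ‖pp (T a) g (w g) - pz (zz g) (w g)‖ ^ 2 ≤ 1 := by
      have h3 : ∀ a, ‖pp (T a) g (w g) - pz (zz g) (w g)‖ ^ 2
          = ∑ s, ‖av (T a) (fun t => conj (chi t g) * w g t) s
            - av ∅ (fun t => conj (chi t g) * w g t) s‖ ^ 2 := fun a => (hT k (T a) g).2.2.1 (w g)
      rw [Finset.sum_congr rfl fun a _ => h3 a]
      refine h1.trans ?_
      rw [(hT k ∅ g).2.2.2.1 (w g)]
      have := hw g
      nlinarith [norm_nonneg (w g)]
    have h4 : ((Finset.univ.filter fun a => ε < ‖pp (T a) g (w g) - pz (zz g) (w g)‖).card : ℝ)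
        * ε ^ 2 ≤ 1 := by
      refine le_trans ?_ h2
      rw [← nsmul_eq_mul, ← Finset.sum_const]
      refine (Finset.sum_le_sum fun a ha => ?_).trans
        (Finset.sum_le_sum_of_subset_of_nonneg (Finset.filter_subset _ _)
          fun a _ _ => sq_nonneg _)
      rw [Finset.mem_filter] at ha
      exact pow_le_pow_left₀ hε.le ha.2.le 2
    have h5 : (2 * (Finset.univ.filter
        fun a => ε < ‖pp (T a) g (w g) - pz (zz g) (w g)‖).card : ℝ) ≤ m := by
      have hε2 : 0 < ε ^ 2 := by positivity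
      by_contra hcon
      push Not at hcon
      have := mul_lt_mul_of_pos_right hcon hε2
      nlinarith
    exact_mod_cast h5
  -- double counting
  obtain ⟨a, ha⟩ : ∃ a : Fin m,
      2 * (Z.filter fun g => ε < ‖pp (T a) g (w g) - pz (zz g) (w g)‖).card ≤ Z.card := by
    by_contra hcon
    push Not at hcon
    have hne : (Finset.univ : Finset (Fin m)).Nonempty := ⟨⟨0, hm1⟩, Finset.mem_univ _⟩
    have h1 : ∑ _a : Fin m, Z.card < ∑ a : Fin m,
        2 * (Z.filter fun g => ε < ‖pp (T a) g (w g) - pz (zz g) (w g)‖).card :=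
      Finset.sum_lt_sum_of_nonempty hne fun a _ => hcon a
    have h2 : ∑ a : Fin m,
        2 * (Z.filter fun g => ε < ‖pp (T a) g (w g) - pz (zz g) (w g)‖).card
        = ∑ g ∈ Z, 2 * (Finset.univ.filter
          fun a => ε < ‖pp (T a) g (w g) - pz (zz g) (w g)‖).card := by
      rw [← Finset.mul_sum, ← Finset.mul_sum]
      congr 1
      simp only [Finset.card_filter]
      rw [Finset.sum_comm]
    have h3 : ∑ g ∈ Z, 2 * (Finset.univ.filter
          fun a => ε < ‖pp (T a) g (w g) - pz (zz g) (w g)‖).card ≤ ∑ _g ∈ Z, m :=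
      Finset.sum_le_sum fun g _ => hbad g
    rw [Finset.sum_const, Finset.card_univ, Fintype.card_fin, smul_eq_mul] at h1
    rw [Finset.sum_const, smul_eq_mul] at h3
    rw [h2] at h1
    have h4 : m * Z.card = Z.card * m := Nat.mul_comm _ _
    omega
  set Y := Z.filter fun g => ¬ ε < ‖pp (T a) g (w g) - pz (zz g) (w g)‖ with hY
  have hYZ : Z.card ≤ 2 * Y.card := by
    have h1 : Z.card ≤ (Z.filter fun g => ε < ‖pp (T a) g (w g) - pz (zz g) (w g)‖).card
        + Y.card := by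
      refine (Finset.card_le_card (fun g hg => ?_)).trans (Finset.card_union_le _ _)
      rw [Finset.mem_union]
      by_cases hg2 : ε < ‖pp (T a) g (w g) - pz (zz g) (w g)‖
      · exact Or.inl (Finset.mem_filter.2 ⟨hg, hg2⟩)
      · exact Or.inr (Finset.mem_filter.2 ⟨hg, hg2⟩)
    omega
  have hZpos : 0 < Z.card := by
    by_contra hcon
    have h0 : Z.card = 0 := by omega
    rw [h0] at hcard
    have : (0 : ℝ) < 9 ^ s := by positivity
    simp only [Nat.cast_zero, zero_mul] at hcard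
    linarith
  have hYne : Y.Nonempty := by
    rw [← Finset.card_pos]
    omega
  have hYsub : Y ⊆ Z := Finset.filter_subset _ _
  obtain ⟨q', hq'Y, hq'⟩ := hSEC k S (T a) q Y (hTS a) hYne
    (fun g hg => hq g (hYsub hg))
  set Z' := Y.filter fun g => ∀ j, j ∉ T a → g j = q' j with hZ'
  have hZ'Y : Z' ⊆ Y := Finset.filter_subset _ _
  obtain ⟨hTb, -, -, -, -⟩ := hT k (T a) q'
  obtain ⟨-, -, -, -, P, hP1, hP⟩ := hT k (T a) q'
  refine ⟨Z', hZ'Y.trans hYsub, ⟨T a, q', ?_, ?_, ?_⟩, P, hP1, ?_⟩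
  · intro g hg
    exact (Finset.mem_filter.1 hg).2
  · rw [hTc a]
    have h1 : 4 * (j + 1) ≤ c := by
      rw [hc, Nat.le_div_iff_mul_le hm1]
      calc 4 * (j + 1) * m = 4 * m * (j + 1) := by ring
        _ ≤ s := hLS
    omega
  · rw [hTc a]
    have h1 := expo (j := j) hm1 rfl hLS hsc
    have hcs : c ≤ s := Nat.div_le_self s m
    rw [hTc a, ← hs] at hq'
    have hq'r : (Y.card : ℝ) ≤ (Z'.card : ℝ) * 9 ^ (s - c) := by exact_mod_cast hq'
    have hYZr : (Z.card : ℝ) ≤ 2 * Y.card := by exact_mod_cast hYZ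
    set e : ℝ := (s : ℝ) / (((4 * m * (j + 1) : ℕ) : ℝ) + 1) with he
    have h2e : (0 : ℝ) < (2 : ℝ) ^ e := Real.rpow_pos_of_pos two_pos _
    have h9 : (9 : ℝ) ^ s = 9 ^ c * 9 ^ (s - c) := by
      rw [← pow_add]
      congr 1
      omega
    have h9p : (0 : ℝ) < 9 ^ (s - c) := by positivity
    have hmain : (9 : ℝ) ^ c * 9 ^ (s - c)
        ≤ ((Z'.card : ℝ) * (2 * (2 : ℝ) ^ e)) * 9 ^ (s - c) := by
      rw [← h9]
      calc (9 : ℝ) ^ s ≤ (Z.card : ℝ) * (2 : ℝ) ^ e := hcard
        _ ≤ (2 * ((Z'.card : ℝ) * 9 ^ (s - c))) * (2 : ℝ) ^ e := by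
            apply mul_le_mul_of_nonneg_right _ h2e.le
            linarith
        _ = ((Z'.card : ℝ) * (2 * (2 : ℝ) ^ e)) * 9 ^ (s - c) := by ring
    have h3 : (9 : ℝ) ^ c ≤ (Z'.card : ℝ) * (2 * (2 : ℝ) ^ e) := le_of_mul_le_mul_right hmain h9p
    refine h3.trans ?_
    apply mul_le_mul_of_nonneg_left _ (Nat.cast_nonneg _)
    have h4 : 2 * (2 : ℝ) ^ e = (2 : ℝ) ^ (e + 1) := by
      rw [Real.rpow_add two_pos, Real.rpow_one]
      ring
    rw [h4]
    exact Real.rpow_le_rpow_of_exponent_le one_le_two h1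
  · intro g hg
    have hgT : ∀ j, j ∉ T a → g j = q' j := (Finset.mem_filter.1 hg).2
    have hgY := hZ'Y hg
    have hgb : ¬ ε < ‖pp (T a) g (w g) - pz (zz g) (w g)‖ := (Finset.mem_filter.1 hgY).2
    have h1 : pp (T a) g (w g) = pp (T a) q' (w g) := (hT k (T a) g).1 q' hgT (w g)
    rw [hP, ← h1]
    exact not_lt.1 hgb

end Pool.Agent.Helper16.RU
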